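import Pool.Agent.H32.Asc

set_option autoImplicit false

namespace Pool.Agent.Results.MP_5f8894_co.Three

open Pool.Agent.H32.Asc Filter Topology

/-- Almost every graph has 3-ASC index 3 (and not 4). -/
theorem result :
    Tendsto (fun n : ℕ =>
      (Nat.card {G : SimpleGraph (Fin n) // IndexEq G 3 3 ∧ ¬ IndexEq G 3 4} : ℝ) /
      (2 : ℝ) ^ (n.choose 2)) atTop (𝓝 1) :=
  Pool.Agent.H32.RandExt.graph_tendsto 2 3 (fun _ G => IndexEq G 3 3 ∧ ¬ IndexEq G 3 4)
    fun _ hn _ h => ⟨⟨upper hn h, fun _ hk => lower hn h hk⟩,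
      fun h4 => absurd (h4.2 (upper hn h)) (by norm_num)⟩

end Pool.Agent.Results.MP_5f8894_co.Three
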